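import Pool.Agent.Helper82.EN.Basic

set_option autoImplicit false

/-! # ENCODING BY TM: module LAID, the content left behind by a steady motion to the left -/

namespace Pool.Agent.Helper82.EN

/-- the first time after `s` at which an integer path with steps `≥ -1` is `≤ v` -/
theorem laid_first (p : ℕ → ℤ) (hp : ∀ t, |p (t + 1) - p t| ≤ 1) (s e : ℕ) (v : ℤ)
    (hse : s ≤ e) (hs : v < p s) (he : p e ≤ v) :
    ∃ t, s < t ∧ t ≤ e ∧ p t = v ∧ ∀ r, s ≤ r → r < t → v < p r := by
  classical
  have hex : ∃ t, s ≤ t ∧ p t ≤ v := ⟨e, hse, he⟩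
  have h1 := Nat.find_spec hex
  have hmin : ∀ r, s ≤ r → r < Nat.find hex → v < p r := by
    intro r hr hr'
    by_contra hcon
    exact Nat.find_min hex hr' ⟨hr, not_lt.mp hcon⟩
  have hst : s < Nat.find hex := by
    rcases Nat.lt_or_ge s (Nat.find hex) with h | h
    · exact h
    · exfalso
      have h2 : Nat.find hex = s := le_antisymm h h1.1
      rw [h2] at h1
      exact absurd h1.2 (not_le.mpr hs)
  refine ⟨Nat.find hex, hst, Nat.find_min' hex ⟨hse, he⟩, ?_, hmin⟩
  apply le_antisymm h1.2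
  obtain ⟨t, ht⟩ : ∃ t, Nat.find hex = t + 1 := ⟨Nat.find hex - 1, by omega⟩
  have h3 : v < p t := hmin t (by omega) (by omega)
  have h4 := hp t
  rw [ht]
  have h5 := (abs_le.mp h4).1
  linarith

/-- **LAID** -/
theorem st_LAID : ST_LAID := by
  intro Q P M c A a b B t₀ u w hstep hD hAa hbB hBt hst hper h1 h2 h3
  obtain ⟨τ₁, ha1, hB1, hp1⟩ := h1
  obtain ⟨τ₂, hA2, hb2, hp2⟩ := h2
  have hkap0 : (0 : ℤ) ≤ P.kap := Int.natCast_nonneg _
  have hD' : (1 : ℤ) ≤ P.D := by exact_mod_cast hD
  have hunit : ∀ t, |(c (t + 1)).p - (c t).p| ≤ 1 := by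
    intro t
    rw [hstep t]
    exact abs_step M (c t)
  -- the motion is steady to the left
  have hdown : ∀ t t' : ℕ, A ≤ t → t ≤ t' → t' < B → (c t').p ≤ (c t).p + P.kap := by
    intro t t' h1 h2 h3
    have h4 : (t' : ℤ) - t ≤ 5 * ((-1) * ((c t').p - (c t).p)) + 5 * P.kap := hst t t' h1 h2 h3
    have h5 : (t : ℤ) ≤ t' := by exact_mod_cast h2
    linarith
  -- `τ₁ < τ₂`
  have h12 : τ₁ < τ₂ := by
    by_contra hcon
    have h4 := hdown τ₂ τ₁ hA2 (not_lt.mp hcon) hB1
    linarith
  -- the first time at `u + D - 1`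
  obtain ⟨tin, hin1, hin2, hinp, -⟩ := laid_first (fun t => (c t).p) hunit τ₁ τ₂
    (u + P.D - 1) h12.le (by show u + (P.D : ℤ) - 1 < (c τ₁).p; linarith)
    (by show (c τ₂).p ≤ u + (P.D : ℤ) - 1; linarith)
  replace hinp : (c tin).p = u + P.D - 1 := hinp
  obtain ⟨tout, hout1, hout2, houtp, houtmin⟩ := laid_first (fun t => (c t).p) hunit tin τ₂
    (u - P.kap - 1) hin2 (by show u - (P.kap : ℤ) - 1 < (c tin).p; linarith) hp2
  replace houtp : (c tout).p = u - P.kap - 1 := houtp
  have hrun : ∀ k, M.run (c tin) k = c (tin + k) := fun k => (run_of_step M hstep tin k).symm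
  have hmrun : ∀ k, M.mir.run (c tin).mir k = (c (tin + k)).mir := by
    intro k
    rw [run_mir, hrun]
  have hlen : (P.D : ℤ) + P.kap ≤ (tout : ℤ) - tin := by
    have h4 := abs_run M (c tin) 0 (tout - tin) (Nat.zero_le _)
    rw [hrun, hrun, Nat.add_zero, Nat.add_sub_cancel' hout1.le, houtp, hinp] at h4
    have h5 := (abs_le.mp h4).1
    have h6 : ((tout - tin : ℕ) : ℤ) = (tout : ℤ) - tin := by
      rw [Nat.cast_sub hout1.le]
    rw [h6] at h5
    push_cast at h5
    linarith
  have hlen' : P.D ≤ tout - tin := by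
    have h4 : (P.D : ℤ) ≤ (tout : ℤ) - tin := by linarith
    omega
  -- contents
  have hcont : ∀ z : ℤ, u ≤ z → z < u + P.D → (c t₀).T z = (c tout).T z := by
    intro z hz1 hz2
    have h4 := run_T_eq M (c tout) (t₀ - tout) z ?_
    · rw [← run_of_step M hstep, Nat.add_sub_cancel' (by omega)] at h4
      exact h4
    · intro t ht hcon
      rw [← run_of_step M hstep] at hcon
      rcases Nat.lt_or_ge (tout + t) B with h5 | h5
      · have h6 := hdown tout (tout + t) (by omega) (by omega) h5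
        rw [hcon, houtp] at h6
        linarith
      · apply h3 (tout + t) h5 (by omega) (z - u) (by linarith) (by linarith)
        rw [hcon]
        ring
  refine ⟨(c tin).mir, tout - tin, hlen', ?_, ?_, ?_, ?_⟩
  · -- window
    intro t ht
    rw [hmrun]
    have h4 : u - (P.kap : ℤ) - 1 < (c (tin + t)).p := houtmin (tin + t) (by omega) (by omega)
    have h5 := hdown tin (tin + t) (by omega) (by omega) (by omega)
    rw [hinp] at h5
    show -(c tin).p - (P.kap : ℤ) ≤ -(c (tin + t)).p ∧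
      -(c (tin + t)).p < -(c tin).p + P.D + P.kap
    rw [hinp]
    constructor <;> linarith
  · rw [hmrun, Nat.add_sub_cancel' hout1.le]
    show -(c tout).p = -(c tin).p + P.D + P.kap
    rw [hinp, houtp]
    ring
  · refine ⟨tin - a, fun x => ?_⟩
    show M.mir.out (M.mir.run (c tin).mir (x : ℕ)) = _
    rw [hmrun, out_mir]
    have hx := x.2
    rw [hper (tin + x) (by omega) (by omega) (by omega)]
    congr 2
    apply Fin.ext
    show (tin + (x : ℕ) - a) % P.D = ((x : ℕ) + (tin - a)) % P.D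
    congr 1
    omega
  · intro x
    have hx := x.2
    show (c t₀).T (u + ((P.D : ℤ) - 1 - x)) = _
    rw [hmrun, Nat.add_sub_cancel' hout1.le, hcont]
    · show (c tout).T (u + ((P.D : ℤ) - 1 - x)) = (c tout).T (-(-(c tin).p + x))
      rw [hinp]
      congr 1
      ring
    · omega
    · omega

end Pool.Agent.Helper82.EN
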